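import Pool.Agent.H78.Kohl

namespace Pool.Agent.Results.MP_d0f150_al.Counter

open Pool.Agent.H78.Kohl

/-- Three class transpositions satisfying conditions 1 and 2 whose group is not transitive on
the nonnegative integers. -/
theorem result : ∃ τ₁ τ₂ τ₃ : Equiv.Perm ℤ, IsCT 0 2 1 2 τ₁ ∧ IsCT 1 2 2 4 τ₂ ∧ IsCT 1 2 2 62 τ₃ ∧
    (∀ S : Set ℤ, (∀ x y, x ≡ y [ZMOD lcm 2 (lcm 2 (lcm 2 (lcm 4 (lcm 2 62))))] → x ∈ S → y ∈ S) →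
      (∀ g ∈ Subgroup.closure ({τ₁, τ₂, τ₃} : Set (Equiv.Perm ℤ)), g '' S = S) →
      S = ∅ ∨ S = Set.univ) ∧
    (∀ n : ℤ, 0 ≤ n → n ≤ 42 → ∃ g ∈ Subgroup.closure ({τ₁, τ₂, τ₃} : Set (Equiv.Perm ℤ)), g 0 = n) ∧
    ¬ ∃ g ∈ Subgroup.closure ({τ₁, τ₂, τ₃} : Set (Equiv.Perm ℤ)), g 0 = 56 :=
  main

end Pool.Agent.Results.MP_d0f150_al.Counter
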